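import Mathlib

open Finset

namespace Pool.Agent.Results.MP_ff3c98_co.BoundedCost

section Perm

variable {V : Type*} [Fintype V] [DecidableEq V]

/-- `g` preserves the set `T`. -/
def Pres (g : Equiv.Perm V) (T : Finset V) : Prop := ∀ v, g v ∈ T ↔ v ∈ T

open Classical in
/-- The orbit of a point as a finset. -/
noncomputable def orb (A : Subgroup (Equiv.Perm V)) (v : V) : Finset V :=
  univ.filter (fun w => ∃ g ∈ A, g v = w)

theorem mem_orb {A : Subgroup (Equiv.Perm V)} {v w : V} :
    w ∈ orb A v ↔ ∃ g ∈ A, g v = w := by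
  classical
  simp [orb]

theorem orb_eq {A : Subgroup (Equiv.Perm V)} {g : Equiv.Perm V} (hg : g ∈ A) (v : V) :
    orb A (g v) = orb A v := by
  ext w
  rw [mem_orb, mem_orb]
  constructor
  · rintro ⟨h, hh, hw⟩
    exact ⟨h * g, A.mul_mem hh hg, hw⟩
  · rintro ⟨h, hh, hw⟩
    refine ⟨h * g⁻¹, A.mul_mem hh (A.inv_mem hg), ?_⟩
    simpa using hw

theorem fiber_card (A : Subgroup (Equiv.Perm V)) [Fintype A] [DecidableEq A] (δ γ : V) :
    (orb A δ).card * (univ.filter (fun a : A => (a : Equiv.Perm V) δ = γ)).card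
      ≤ Fintype.card A := by
  classical
  have h1 : Fintype.card A = ∑ w ∈ orb A δ,
      (univ.filter (fun a : A => (a : Equiv.Perm V) δ = w)).card := by
    rw [← Finset.card_univ]
    apply Finset.card_eq_sum_card_fiberwise
    intro a _
    exact mem_orb.2 ⟨a, a.2, rfl⟩
  rw [h1, ← smul_eq_mul, ← Finset.sum_const]
  apply Finset.sum_le_sum
  intro w hw
  obtain ⟨h, hh, hw⟩ := mem_orb.1 hw
  rcases (univ.filter (fun a : A => (a : Equiv.Perm V) δ = γ)).eq_empty_or_nonempty with he | ⟨a0, ha0⟩
  · rw [he]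
    simp
  · simp only [mem_filter, mem_univ, true_and] at ha0
    apply Finset.card_le_card_of_injOn (fun a => (⟨h, hh⟩ : A) * a0⁻¹ * a)
    · intro a ha
      simp only [coe_filter, mem_univ, true_and, Set.mem_ofPred_eq] at ha ⊢
      simp only [Subgroup.coe_mul, Subgroup.coe_inv, Equiv.Perm.coe_mul, Function.comp_apply]
      have h5 : (a0 : Equiv.Perm V)⁻¹ γ = δ := by
        rw [← ha0]
        simp
      rw [ha, h5]
      exact hw
    · intro a _ b _ hab
      exact mul_left_cancel hab

/-- A finite form of P. M. Neumann's lemma. -/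
theorem move (A : Subgroup (Equiv.Perm V)) (Δ Γ : Finset V)
    (h : ∀ δ ∈ Δ, Δ.card * Γ.card < (orb A δ).card) :
    ∃ a ∈ A, ∀ δ ∈ Δ, a δ ∉ Γ := by
  classical
  have : Fintype A := Fintype.ofFinite A
  by_contra hcon
  push Not at hcon
  have hcov : (univ : Finset A) ⊆ (Δ ×ˢ Γ).biUnion
      (fun p => univ.filter (fun a : A => (a : Equiv.Perm V) p.1 = p.2)) := by
    intro a _
    obtain ⟨δ, hδ, hγ⟩ := hcon a a.2
    rw [mem_biUnion]
    exact ⟨(δ, (a : Equiv.Perm V) δ), mem_product.2 ⟨hδ, hγ⟩, by simp⟩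
  have h1 : Fintype.card A ≤ ∑ p ∈ Δ ×ˢ Γ,
      (univ.filter (fun a : A => (a : Equiv.Perm V) p.1 = p.2)).card := by
    rw [← Finset.card_univ]
    exact (card_le_card hcov).trans card_biUnion_le
  have h2 : (Δ.card * Γ.card + 1) * Fintype.card A ≤
      ∑ p ∈ Δ ×ˢ Γ, Fintype.card A := by
    refine (Nat.mul_le_mul_left _ h1).trans ?_
    rw [Finset.mul_sum]
    apply Finset.sum_le_sum
    intro p hp
    have := h p.1 (mem_product.1 hp).1
    exact (Nat.mul_le_mul_right _ this).trans (fiber_card A p.1 p.2)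
  rw [Finset.sum_const, card_product, smul_eq_mul] at h2
  have h3 : 0 < Fintype.card A := Fintype.card_pos
  nlinarith


section Main

variable (A : Subgroup (Equiv.Perm V)) (F' : ℕ)

/-- The points lying in large orbits. -/
noncomputable def L : Finset V := univ.filter (fun v => F' < (orb A v).card)

theorem mem_L {v : V} : v ∈ L A F' ↔ F' < (orb A v).card := by
  simp [L]

theorem L_inv {g : Equiv.Perm V} (hg : g ∈ A) (v : V) : g v ∈ L A F' ↔ v ∈ L A F' := by
  rw [mem_L, mem_L, orb_eq hg]

/-- The part of the support of `g` in the large orbits. -/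
noncomputable def sup (g : Equiv.Perm V) : Finset V :=
  univ.filter (fun v => g v ≠ v ∧ v ∈ L A F')

theorem mem_sup {g : Equiv.Perm V} {v : V} : v ∈ sup A F' g ↔ g v ≠ v ∧ v ∈ L A F' := by
  simp [sup]

open Classical in
/-- The elements fixing the part of `B` in the large orbits. -/
noncomputable def P (B : Finset V) : Finset (Equiv.Perm V) :=
  univ.filter (fun g => g ∈ A ∧ ∀ b ∈ B, b ∈ L A F' → g b = b)

theorem mem_P {B : Finset V} {g : Equiv.Perm V} :
    g ∈ P A F' B ↔ g ∈ A ∧ ∀ b ∈ B, b ∈ L A F' → g b = b := by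
  simp [P]

variable {A F'}

theorem card_P {B : Finset V} {d F : ℕ} (hd : B.card ≤ d)
    (hB : ∀ g ∈ A, (∀ b ∈ B, g b = b) → g = 1)
    (hgap : ∀ b ∈ B, (orb A b).card ≤ F ∨ F' < (orb A b).card) :
    (P A F' B).card ≤ (F + 1) ^ d := by
  classical
  have h1 : (P A F' B).card ≤ (Fintype.piFinset (fun b : B =>
      if (b : V) ∈ L A F' then ({(b : V)} : Finset V) else orb A (b : V))).card := by
    apply Finset.card_le_card_of_injOn (fun g => fun b : B => g (b : V))
    · intro g hg
      rw [mem_coe, mem_P] at hg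
      rw [mem_coe, Fintype.mem_piFinset]
      intro b
      by_cases hb : (b : V) ∈ L A F'
      · rw [if_pos hb, mem_singleton]
        exact hg.2 b b.2 hb
      · rw [if_neg hb]
        exact mem_orb.2 ⟨g, hg.1, rfl⟩
    · intro g hg h hh hgh
      rw [mem_coe, mem_P] at hg hh
      have h2 : g⁻¹ * h = 1 := by
        apply hB _ (A.mul_mem (A.inv_mem hg.1) hh.1)
        intro b hb
        have := congrFun hgh ⟨b, hb⟩
        simp only at this
        simp [← this]
      have h3 : h = g := by
        have := congrArg (fun k => g * k) h2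
        simpa using this
      exact h3.symm
  refine h1.trans ?_
  rw [Fintype.card_piFinset]
  have h2 : ∏ b : B, (if (b : V) ∈ L A F' then ({(b : V)} : Finset V) else orb A (b : V)).card
      ≤ ∏ _b : B, (F + 1) := by
    apply Finset.prod_le_prod'
    intro b _
    by_cases hb : (b : V) ∈ L A F'
    · rw [if_pos hb]
      simp
    · rw [if_neg hb]
      rcases hgap b b.2 with h | h
      · omega
      · exact absurd ((mem_L A F').2 h) hb
  refine h2.trans ?_
  rw [Finset.prod_const, Finset.card_univ, Fintype.card_coe]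
  exact Nat.pow_le_pow_right (by omega) hd

theorem claim1 {B : Finset V} {d p s : ℕ} (hd : B.card ≤ d) (hP : (P A F' B).card ≤ p)
    (hF : s * (d + p * s) ≤ F') {g : Equiv.Perm V} (hg : g ∈ A)
    (hs : (sup A F' g).card ≤ s) : sup A F' g = ∅ := by
  classical
  by_contra hne
  obtain ⟨δ, hδ⟩ := Finset.nonempty_iff_ne_empty.2 hne
  set Γ : Finset V := B ∪ ((P A F' B).filter (fun h => (sup A F' h).card ≤ s)).biUnion
    (fun h => sup A F' h) with hΓ
  have hΓc : Γ.card ≤ d + p * s := by
    refine (card_union_le _ _).trans ?_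
    have h1 : (((P A F' B).filter (fun h => (sup A F' h).card ≤ s)).biUnion
        (fun h => sup A F' h)).card ≤ ((P A F' B).filter (fun h => (sup A F' h).card ≤ s)).card * s :=
      card_biUnion_le_card_mul _ _ _ (fun h hh => (mem_filter.1 hh).2)
    have h2 : ((P A F' B).filter (fun h => (sup A F' h).card ≤ s)).card * s ≤ p * s :=
      Nat.mul_le_mul_right _ ((card_filter_le _ _).trans hP)
    omega
  obtain ⟨a, ha, hav⟩ := move A (sup A F' g) Γ (by
    intro δ hδ
    have h1 := (mem_L A F').1 ((mem_sup A F').1 hδ).2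
    have h2 : (sup A F' g).card * Γ.card ≤ s * (d + p * s) := Nat.mul_le_mul hs hΓc
    omega)
  have hg' : a * g * a⁻¹ ∈ A := A.mul_mem (A.mul_mem ha hg) (A.inv_mem ha)
  have hmem : ∀ v, v ∈ sup A F' (a * g * a⁻¹) ↔ a⁻¹ v ∈ sup A F' g := by
    intro v
    rw [mem_sup, mem_sup, L_inv A F' (A.inv_mem ha)]
    have : (a * g * a⁻¹) v = v ↔ g (a⁻¹ v) = a⁻¹ v := by
      simp only [Equiv.Perm.coe_mul, Function.comp_apply]
      rw [← Equiv.Perm.eq_inv_iff_eq]
    rw [Ne, Ne, this]
  have hcard : (sup A F' (a * g * a⁻¹)).card = (sup A F' g).card := by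
    have : sup A F' (a * g * a⁻¹) = (sup A F' g).map a.toEmbedding := by
      ext v
      rw [hmem, mem_map_equiv]
      rfl
    rw [this, card_map]
  have hP' : a * g * a⁻¹ ∈ P A F' B := by
    rw [mem_P]
    refine ⟨hg', ?_⟩
    intro b hb hbL
    by_contra hcon
    have h1 : b ∈ sup A F' (a * g * a⁻¹) := (mem_sup A F').2 ⟨hcon, hbL⟩
    have h2 := hav _ ((hmem b).1 h1)
    apply h2
    have h3 : a (a⁻¹ b) = b := by simp
    rw [h3]
    exact mem_union_left _ hb
  apply hav δ hδ
  apply mem_union_right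
  rw [mem_biUnion]
  refine ⟨a * g * a⁻¹, mem_filter.2 ⟨hP', by rw [hcard]; exact hs⟩, ?_⟩
  rw [hmem]
  simpa using hδ

/-- `T` is a base for the action on the large orbits. -/
def BaseL (A : Subgroup (Equiv.Perm V)) (F' : ℕ) (T : Finset V) : Prop :=
  ∀ g ∈ A, (∀ t ∈ T, g t = t) → ∀ v ∈ L A F', g v = v

theorem BaseL.mono {T U : Finset V} (h : BaseL A F' T) (hTU : T ⊆ U) : BaseL A F' U :=
  fun g hg hU => h g hg (fun t ht => hU t (hTU ht))

theorem exists_base {B : Finset V} {d p : ℕ} (hd : B.card ≤ d) (hP : (P A F' B).card ≤ p) :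
    ∃ B' : Finset V, B' ⊆ L A F' ∧ B'.card ≤ d + p ∧ BaseL A F' B' := by
  classical
  refine ⟨B.filter (fun b => b ∈ L A F') ∪ (P A F' B).biUnion
    (fun g => if h : (sup A F' g).Nonempty then {h.choose} else ∅), ?_, ?_, ?_⟩
  · intro v hv
    rw [mem_union, mem_filter, mem_biUnion] at hv
    rcases hv with hv | ⟨g, -, hv⟩
    · exact hv.2
    · by_cases h : (sup A F' g).Nonempty
      · rw [dif_pos h, mem_singleton] at hv
        rw [hv]
        exact ((mem_sup A F').1 h.choose_spec).2
      · rw [dif_neg h] at hv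
        simp at hv
  · refine (card_union_le _ _).trans ?_
    have h1 : ((P A F' B).biUnion
        (fun g => if h : (sup A F' g).Nonempty then {h.choose} else ∅)).card
        ≤ (P A F' B).card * 1 := by
      apply card_biUnion_le_card_mul
      intro g _
      by_cases h : (sup A F' g).Nonempty
      · rw [dif_pos h]
        simp
      · rw [dif_neg h]
        simp
    have h2 := card_filter_le B (fun b => b ∈ L A F')
    omega
  · intro g hg hfix v hv
    by_contra hcon
    have hne : (sup A F' g).Nonempty := ⟨v, (mem_sup A F').2 ⟨hcon, hv⟩⟩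
    have hgP : g ∈ P A F' B := by
      rw [mem_P]
      refine ⟨hg, fun b hb hbL => hfix b ?_⟩
      exact mem_union_left _ (mem_filter.2 ⟨hb, hbL⟩)
    have h1 : hne.choose ∈ sup A F' g := hne.choose_spec
    have h2 := hfix hne.choose (by
      apply mem_union_right
      rw [mem_biUnion]
      refine ⟨g, hgP, ?_⟩
      rw [dif_pos hne]
      simp)
    exact ((mem_sup A F').1 h1).1 h2

theorem exists_T0 {B' : Finset V} {d' : ℕ} (hL : B' ⊆ L A F') (hc : B'.card ≤ d')
    (hbase : BaseL A F' B') (hF : d' * d' ≤ F') :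
    ∃ T0 : Finset V, T0 ⊆ L A F' ∧ T0.card ≤ 2 * d' ∧ ∀ c, BaseL A F' (T0.erase c) := by
  classical
  obtain ⟨a, ha, hav⟩ := move A B' B' (by
    intro δ hδ
    have h1 := (mem_L A F').1 (hL hδ)
    have h2 : B'.card * B'.card ≤ d' * d' := Nat.mul_le_mul hc hc
    omega)
  refine ⟨B' ∪ B'.map a.toEmbedding, ?_, ?_, ?_⟩
  · intro v hv
    rw [mem_union, mem_map] at hv
    rcases hv with hv | ⟨w, hw, rfl⟩
    · exact hL hv
    · exact (L_inv A F' ha w).2 (hL hw)
  · refine (card_union_le _ _).trans ?_
    rw [card_map]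
    omega
  · intro c
    by_cases hcB : c ∈ B'
    · have hb2 : BaseL A F' (B'.map a.toEmbedding) := by
        intro g hg hfix v hv
        have h1 : a⁻¹ * g * a ∈ A := A.mul_mem (A.mul_mem (A.inv_mem ha) hg) ha
        have h2 := hbase _ h1 (by
          intro t ht
          have h3 := hfix (a t) (mem_map.2 ⟨t, ht, rfl⟩)
          simp only [Equiv.Perm.coe_mul, Function.comp_apply]
          rw [h3]
          simp) (a⁻¹ v) ((L_inv A F' (A.inv_mem ha) v).2 hv)
        simp only [Equiv.Perm.coe_mul, Function.comp_apply] at h2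
        have h4 : a (a⁻¹ v) = v := by simp
        rw [h4] at h2
        exact a⁻¹.injective h2
      apply hb2.mono
      intro v hv
      rw [mem_map] at hv
      obtain ⟨w, hw, rfl⟩ := hv
      rw [mem_erase]
      refine ⟨?_, mem_union_right _ (mem_map.2 ⟨w, hw, rfl⟩)⟩
      intro h
      apply hav w hw
      have h' : a w = c := h
      rw [h']
      exact hcB
    · apply hbase.mono
      intro v hv
      rw [mem_erase]
      refine ⟨?_, mem_union_left _ hv⟩
      intro h
      rw [h] at hv
      exact hcB hv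

open Classical in
/-- The bad points for `T`. -/
noncomputable def bad (A : Subgroup (Equiv.Perm V)) (F' : ℕ) (T : Finset V) : Finset V :=
  univ.filter (fun x => x ∈ L A F' ∧ x ∉ T ∧ ∃ g ∈ A, Pres g (insert x T) ∧ ¬ Pres g T)

theorem mem_bad {T : Finset V} {x : V} : x ∈ bad A F' T ↔
    x ∈ L A F' ∧ x ∉ T ∧ ∃ g ∈ A, Pres g (insert x T) ∧ ¬ Pres g T := by
  simp [bad]

omit [Fintype V] in
theorem pres_of_fix {T : Finset V} {x : V} {g : Equiv.Perm V}
    (hg : Pres g (insert x T)) (hgx : g x = x) : Pres g T := by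
  intro v
  by_cases hv : v = x
  · rw [hv, hgx]
  · have h1 : g v ≠ x := by
      intro h
      apply hv
      apply g.injective
      rw [h, hgx]
    have h2 := hg v
    rw [mem_insert, mem_insert] at h2
    constructor
    · intro h
      rcases h2.1 (Or.inr h) with h3 | h3
      · exact absurd h3 hv
      · exact h3
    · intro h
      rcases h2.2 (Or.inr h) with h3 | h3
      · exact absurd h3 h1
      · exact h3

theorem card_bad {T0 T : Finset V} {τ : ℕ} (h0 : ∀ c, BaseL A F' (T0.erase c))
    (hT0 : T0 ⊆ T) (hτ : T.card ≤ τ) : (bad A F' T).card ≤ (τ + 1) ^ τ := by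
  classical
  have hch : ∀ x : V, ∃ g : Equiv.Perm V, x ∈ bad A F' T →
      g ∈ A ∧ Pres g (insert x T) ∧ ¬ Pres g T := by
    intro x
    by_cases hx : x ∈ bad A F' T
    · obtain ⟨-, -, g, hg, h1, h2⟩ := mem_bad.1 hx
      exact ⟨g, fun _ => ⟨hg, h1, h2⟩⟩
    · exact ⟨1, fun h => absurd h hx⟩
  choose G hG using hch
  have hcard : (bad A F' T).card ≤ (univ : Finset (T → Option T)).card := by
    apply Finset.card_le_card_of_injOn
      (fun x => fun t : T => if h : G x (t : V) ∈ T then some (⟨G x (t : V), h⟩ : T) else none)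
    · intro x _
      simp
    · intro x hx y hy hxy
      rw [mem_coe] at hx hy
      obtain ⟨hgA, hg1, hg2⟩ := hG x hx
      obtain ⟨hhA, hh1, hh2⟩ := hG y hy
      obtain ⟨hxL, hxT, -⟩ := mem_bad.1 hx
      set g := G x with hgdef
      set h := G y with hhdef
      have e1 : ∀ t ∈ T, g t ∈ T → h t = g t := by
        intro t ht hgt
        have := congrFun hxy ⟨t, ht⟩
        simp only at this
        rw [dif_pos hgt] at this
        by_cases h2 : h t ∈ T
        · rw [dif_pos h2] at this
          have h3 := Option.some.inj this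
          exact (congrArg Subtype.val h3).symm
        · rw [dif_neg h2] at this
          exact absurd this (by simp)
      have e2 : ∀ t ∈ T, g t ∉ T → h t ∉ T := by
        intro t ht hgt h2
        have := congrFun hxy ⟨t, ht⟩
        simp only at this
        rw [dif_neg hgt, dif_pos h2] at this
        exact absurd this (by simp)
      have hgx : g x ≠ x := fun hc => hg2 (pres_of_fix hg1 hc)
      have hc : g x ∈ T := by
        have := (hg1 x).2 (mem_insert_self _ _)
        rw [mem_insert] at this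
        rcases this with h3 | h3
        · exact absurd h3 hgx
        · exact h3
      have hgb : g (g⁻¹ x) = x := by simp
      have hb : g⁻¹ x ∈ T := by
        have h3 : g⁻¹ x ∈ insert x T := (hg1 _).1 (by rw [hgb]; exact mem_insert_self _ _)
        rw [mem_insert] at h3
        rcases h3 with h3 | h3
        · exfalso
          apply hgx
          rw [h3] at hgb
          exact hgb
        · exact h3
      have hhb : h (g⁻¹ x) = y := by
        have h3 := e2 _ hb (by rw [hgb]; exact hxT)
        have h4 := (hh1 (g⁻¹ x)).2 (mem_insert_of_mem hb)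
        rw [mem_insert] at h4
        rcases h4 with h4 | h4
        · exact h4
        · exact absurd h4 h3
      have hk : ∀ v ∈ L A F', (h * g⁻¹) v = v := by
        apply h0 (g x) _ (A.mul_mem hhA (A.inv_mem hgA))
        intro t ht
        rw [mem_erase] at ht
        have hgt : g (g⁻¹ t) = t := by simp
        have h3 : g⁻¹ t ∈ insert x T := (hg1 _).1 (by
          rw [hgt]; exact mem_insert_of_mem (hT0 ht.2))
        rw [mem_insert] at h3
        rcases h3 with h3 | h3
        · exfalso
          apply ht.1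
          rw [h3] at hgt
          exact hgt.symm
        · have h4 := e1 _ h3 (by rw [hgt]; exact hT0 ht.2)
          rw [hgt] at h4
          exact h4
      have h5 := hk x hxL
      have h6 : (h * g⁻¹) x = h (g⁻¹ x) := rfl
      rw [h6, hhb] at h5
      exact h5.symm
  refine hcard.trans ?_
  rw [Finset.card_univ, Fintype.card_fun, Fintype.card_option, Fintype.card_coe]
  calc (T.card + 1) ^ T.card ≤ (τ + 1) ^ T.card := Nat.pow_le_pow_left (by omega) _
    _ ≤ (τ + 1) ^ τ := Nat.pow_le_pow_right (by omega) hτ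

theorem claim3 {T0 : Finset V} {τ s : ℕ} (h0 : ∀ c, BaseL A F' (T0.erase c))
    (h0L : T0 ⊆ L A F')
    (hsmall : ∀ g ∈ A, (sup A F' g).card ≤ s → sup A F' g = ∅)
    (hs : (τ + 1) ^ τ + τ ≤ s) (R : Finset (Equiv.Perm V)) :
    (∀ r ∈ R, r ∈ A ∧ (sup A F' r).Nonempty) → T0.card + R.card ≤ τ →
    ∃ T : Finset V, T0 ⊆ T ∧ T ⊆ L A F' ∧ T.card ≤ T0.card + R.card ∧
      (∀ g ∈ A, Pres g T → Pres g T0) ∧
      ∀ r ∈ R, ∀ g ∈ A, Pres g T → ∃ v ∈ L A F', g v ≠ r v := by
  classical
  induction R using Finset.induction_on with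
  | empty =>
    intro _ _
    exact ⟨T0, Finset.Subset.refl _, h0L, by simp, fun _ _ h => h, fun r hr => by simp at hr⟩
  | insert r R hr ih =>
    intro hR hcard
    rw [card_insert_of_notMem hr] at hcard
    obtain ⟨T, hT0, hTL, hTc, hTp, hTr⟩ := ih (fun r' hr' => hR r' (mem_insert_of_mem hr'))
      (by omega)
    have hbadc := card_bad h0 hT0 (show T.card ≤ τ by omega)
    have hex : ∃ x ∈ sup A F' r, x ∉ bad A F' T ∪ T := by
      by_contra hcon
      push Not at hcon
      have h1 : (sup A F' r).card ≤ s := by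
        refine (card_le_card hcon).trans ((card_union_le _ _).trans ?_)
        omega
      have h2 := hsmall r (hR r (mem_insert_self _ _)).1 h1
      have h3 := (hR r (mem_insert_self _ _)).2
      rw [h2] at h3
      exact Finset.not_nonempty_empty h3
    obtain ⟨x, hx, hx2⟩ := hex
    rw [mem_union, not_or] at hx2
    obtain ⟨hxs, hxL⟩ := (mem_sup A F').1 hx
    have hstep : ∀ g ∈ A, Pres g (insert x T) → Pres g T := by
      intro g hg hgp
      by_contra hcon
      exact hx2.1 (mem_bad.2 ⟨hxL, hx2.2, g, hg, hgp, hcon⟩)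
    refine ⟨insert x T, hT0.trans (subset_insert _ _), insert_subset hxL hTL, ?_, ?_, ?_⟩
    · rw [card_insert_of_notMem hx2.2, card_insert_of_notMem hr]
      omega
    · intro g hg hgp
      exact hTp g hg (hstep g hg hgp)
    · intro r' hr' g hg hgp
      rw [mem_insert] at hr'
      rcases hr' with hr' | hr'
      · rw [hr']
        refine ⟨x, hxL, ?_⟩
        have h1 : g x = x := by
          have h2 := (hgp x).2 (mem_insert_self _ _)
          rw [mem_insert] at h2
          rcases h2 with h2 | h2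
          · exact h2
          · exact absurd ((hstep g hg hgp x).1 h2) hx2.2
        rw [h1]
        exact fun hc => hxs hc.symm
      · exact hTr r' hr' g hg (hstep g hg hgp)

end Main

theorem main_step (d F : ℕ) : ∃ F' C : ℕ, F ≤ F' ∧
    ∀ (V : Type*) [Fintype V] [DecidableEq V] (A : Subgroup (Equiv.Perm V)) (B S0 : Finset V),
      B.card ≤ d → (∀ g ∈ A, (∀ b ∈ B, g b = b) → g = 1) →
      (∀ b ∈ B, (orb A b).card ≤ F ∨ F' < (orb A b).card) →
      (∀ g ∈ A, Pres g S0 → g = 1) →
      ∃ S : Finset V, S.card ≤ C ∧ ∀ g ∈ A, Pres g S → g = 1 := by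
  set p : ℕ := (F + 1) ^ d with hp
  set d' : ℕ := d + p with hd'
  set t0 : ℕ := 2 * d' with ht0
  set τ : ℕ := t0 + t0 ^ t0 with hτ
  set s : ℕ := (τ + 1) ^ τ + τ with hs
  set F' : ℕ := s * (d + p * s) + d' * d' + F with hF'
  refine ⟨F', τ + p * F', by omega, ?_⟩
  intro V _ _ A B S0 hd hB hgap hS0
  classical
  have hPc : (P A F' B).card ≤ p := card_P hd hB hgap
  have hsmall : ∀ g ∈ A, (sup A F' g).card ≤ s → sup A F' g = ∅ := by
    intro g hg h
    exact claim1 hd hPc (by omega) hg h
  obtain ⟨B', hB'L, hB'c, hB'b⟩ := exists_base hd hPc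
  obtain ⟨T0, hT0L, hT0c, hT0b⟩ := exists_T0 (d' := d') hB'L hB'c hB'b (by omega)
  -- the list of representatives
  set R : Finset (Equiv.Perm V) := (univ : Finset (T0 → T0)).biUnion (fun f =>
    if h : ∃ g ∈ A, (∀ t : T0, g (t : V) = f t) ∧ (sup A F' g).Nonempty then {h.choose} else ∅)
    with hR
  have hRc : R.card ≤ t0 ^ t0 := by
    have h1 : R.card ≤ (univ : Finset (T0 → T0)).card * 1 := by
      apply card_biUnion_le_card_mul
      intro f _
      by_cases h : ∃ g ∈ A, (∀ t : T0, g (t : V) = f t) ∧ (sup A F' g).Nonempty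
      · rw [dif_pos h]
        simp
      · rw [dif_neg h]
        simp
    rw [mul_one, Finset.card_univ, Fintype.card_fun, Fintype.card_coe] at h1
    refine h1.trans ?_
    rcases Nat.eq_zero_or_pos t0 with h2 | h2
    · have h3 : T0.card = 0 := by omega
      rw [h3, h2]
    · calc T0.card ^ T0.card ≤ t0 ^ T0.card := Nat.pow_le_pow_left hT0c _
        _ ≤ t0 ^ t0 := Nat.pow_le_pow_right h2 hT0c
  have hRmem : ∀ r ∈ R, r ∈ A ∧ (sup A F' r).Nonempty := by
    intro r hr
    rw [hR, mem_biUnion] at hr
    obtain ⟨f, -, hr⟩ := hr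
    by_cases h : ∃ g ∈ A, (∀ t : T0, g (t : V) = f t) ∧ (sup A F' g).Nonempty
    · rw [dif_pos h, mem_singleton] at hr
      rw [hr]
      exact ⟨h.choose_spec.1, h.choose_spec.2.2⟩
    · rw [dif_neg h] at hr
      simp at hr
  obtain ⟨T, hT0T, hTL, hTc, hTp, hTr⟩ := claim3 hT0b hT0L hsmall (le_refl _) R hRmem
    (by omega)
  have hTK : ∀ g ∈ A, Pres g T → ∀ v ∈ L A F', g v = v := by
    intro g hg hgp
    by_contra hcon
    push Not at hcon
    obtain ⟨v, hv, hgv⟩ := hcon
    have hne : (sup A F' g).Nonempty := ⟨v, (mem_sup A F').2 ⟨hgv, hv⟩⟩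
    have hp0 := hTp g hg hgp
    have hex : ∃ g' ∈ A, (∀ t : T0, g' (t : V) =
        (fun t : T0 => (⟨g (t : V), (hp0 t).2 t.2⟩ : T0)) t) ∧ (sup A F' g').Nonempty :=
      ⟨g, hg, fun t => rfl, hne⟩
    have hr : hex.choose ∈ R := by
      rw [hR, mem_biUnion]
      refine ⟨(fun t : T0 => (⟨g (t : V), (hp0 t).2 t.2⟩ : T0)), mem_univ _, ?_⟩
      rw [dif_pos hex]
      simp
    obtain ⟨w, hw, hgw⟩ := hTr _ hr g hg hgp
    apply hgw
    have h1 := hex.choose_spec.1
    have h2 := hex.choose_spec.2.1
    set r := hex.choose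
    have h3 : ∀ v ∈ L A F', (r⁻¹ * g) v = v := by
      apply ((hT0b w).mono (erase_subset _ _)) _ (A.mul_mem (A.inv_mem h1) hg)
      intro t ht
      have h4 := h2 ⟨t, ht⟩
      simp only at h4
      simp only [Equiv.Perm.coe_mul, Function.comp_apply]
      rw [← h4]
      simp
    have h5 := h3 w hw
    simp only [Equiv.Perm.coe_mul, Function.comp_apply] at h5
    rw [Equiv.Perm.inv_eq_iff_eq] at h5
    exact h5
  -- the part outside the large orbits
  set K : Finset (Equiv.Perm V) :=
    univ.filter (fun g => g ∈ A ∧ ∀ v ∈ L A F', g v = v) with hK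
  have memK : ∀ g, g ∈ K ↔ g ∈ A ∧ ∀ v ∈ L A F', g v = v := by
    intro g
    simp [hK]
  have hKc : K.card ≤ p := by
    refine (card_le_card ?_).trans hPc
    intro g hg
    rw [memK] at hg
    rw [mem_P]
    exact ⟨hg.1, fun b _ hbL => hg.2 b hbL⟩
  set W : Finset V := K.biUnion (fun g =>
    if h : ∃ v, ¬ (g v ∈ S0 ↔ v ∈ S0) then orb A h.choose else ∅) with hW
  have hWc : W.card ≤ p * F' := by
    have h1 : W.card ≤ K.card * F' := by
      apply card_biUnion_le_card_mul
      intro g hg
      rw [memK] at hg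
      by_cases h : ∃ v, ¬ (g v ∈ S0 ↔ v ∈ S0)
      · rw [dif_pos h]
        have h2 : h.choose ∉ L A F' := by
          intro hc
          apply h.choose_spec
          rw [hg.2 _ hc]
        rw [mem_L] at h2
        omega
      · rw [dif_neg h]
        simp
    exact h1.trans (Nat.mul_le_mul_right _ hKc)
  have hWL : ∀ v ∈ W, v ∉ L A F' := by
    intro v hv hvL
    rw [hW, mem_biUnion] at hv
    obtain ⟨g, hg, hv⟩ := hv
    rw [memK] at hg
    by_cases h : ∃ v, ¬ (g v ∈ S0 ↔ v ∈ S0)
    · rw [dif_pos h] at hv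
      obtain ⟨a, ha, hav⟩ := mem_orb.1 hv
      have h2 : h.choose ∈ L A F' := by
        rw [← L_inv A F' ha, hav]
        exact hvL
      apply h.choose_spec
      rw [hg.2 _ h2]
    · rw [dif_neg h] at hv
      simp at hv
  refine ⟨T ∪ (S0 ∩ W), ?_, ?_⟩
  · refine (card_union_le _ _).trans ?_
    have h1 : (S0 ∩ W).card ≤ W.card := card_le_card inter_subset_right
    omega
  · intro g hg hgp
    have h1 : Pres g T := by
      intro v
      have h2 := hgp v
      have h3 := L_inv A F' hg v
      rw [mem_union, mem_union] at h2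
      constructor
      · intro h
        rcases h2.1 (Or.inl h) with h4 | h4
        · exact h4
        · exact absurd (h3.1 (hTL h)) (hWL _ (mem_inter.1 h4).2)
      · intro h
        rcases h2.2 (Or.inl h) with h4 | h4
        · exact h4
        · exact absurd (h3.2 (hTL h)) (hWL _ (mem_inter.1 h4).2)
    have h2 : Pres g (S0 ∩ W) := by
      intro v
      have h2 := hgp v
      have h3 := L_inv A F' hg v
      rw [mem_union, mem_union] at h2
      constructor
      · intro h
        rcases h2.1 (Or.inr h) with h4 | h4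
        · exact absurd (h3.2 (hTL h4)) (hWL _ (mem_inter.1 h).2)
        · exact h4
      · intro h
        rcases h2.2 (Or.inr h) with h4 | h4
        · exact absurd (h3.1 (hTL h4)) (hWL _ (mem_inter.1 h).2)
        · exact h4
    have hgK : g ∈ K := (memK g).2 ⟨hg, hTK g hg h1⟩
    apply hS0 g hg
    by_contra hcon
    have hex : ∃ v, ¬ (g v ∈ S0 ↔ v ∈ S0) := by
      unfold Pres at hcon
      push Not at hcon
      obtain ⟨v, hv⟩ := hcon
      exact ⟨v, fun h => by tauto⟩
    have h3 : ∀ w ∈ orb A hex.choose, w ∈ W := by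
      intro w hw
      rw [hW, mem_biUnion]
      refine ⟨g, hgK, ?_⟩
      rw [dif_pos hex]
      exact hw
    have h4 : hex.choose ∈ W := h3 _ (mem_orb.2 ⟨1, A.one_mem, rfl⟩)
    have h5 : g hex.choose ∈ W := h3 _ (mem_orb.2 ⟨g, hg, rfl⟩)
    apply hex.choose_spec
    have h6 := h2 hex.choose
    rw [mem_inter, mem_inter] at h6
    constructor
    · intro h
      exact (h6.1 ⟨h, h5⟩).1
    · intro h
      exact (h6.2 ⟨h, h4⟩).1

/-- The permutation group version: if a finite permutation group has a base of size at most `d`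
and some set with trivial setwise stabiliser, then it has such a set of size at most `C d`. -/
theorem bounded (d : ℕ) : ∃ C : ℕ,
    ∀ (V : Type*) [Fintype V] [DecidableEq V] (A : Subgroup (Equiv.Perm V)) (B S0 : Finset V),
      B.card ≤ d → (∀ g ∈ A, (∀ b ∈ B, g b = b) → g = 1) →
      (∀ g ∈ A, Pres g S0 → g = 1) →
      ∃ S : Finset V, S.card ≤ C ∧ ∀ g ∈ A, Pres g S → g = 1 := by
  classical
  choose Φ C hΦ hmain using main_step d
  let Fs : ℕ → ℕ := fun n => Φ^[n] 0
  have hstep : ∀ n, Fs (n + 1) = Φ (Fs n) := fun n => Function.iterate_succ_apply' Φ n 0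
  have hmono : Monotone Fs := monotone_nat_of_le_succ (fun n => by rw [hstep]; exact hΦ _)
  refine ⟨(Finset.range (d + 1)).sup (fun i => C (Fs i)), ?_⟩
  intro V _ _ A B S0 hd hB hS0
  have hex : ∃ i ∈ Finset.range (d + 1), ∀ b ∈ B,
      (orb A b).card ≤ Fs i ∨ Fs (i + 1) < (orb A b).card := by
    by_contra hcon
    push Not at hcon
    have hVne : Nonempty V := by
      obtain ⟨b, -, -⟩ := hcon 0 (Finset.mem_range.2 (Nat.succ_pos d))
      exact ⟨b⟩
    choose! f hf using hcon
    have h1 : (Finset.range (d + 1)).card ≤ B.card := by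
      apply Finset.card_le_card_of_injOn f
      · intro i hi
        exact (hf i hi).1
      · intro i hi j hj hij
        by_contra hne
        rcases Nat.lt_or_gt_of_ne hne with h | h
        · have h2 := (hf i hi).2.2
          have h3 := (hf j hj).2.1
          have h4 : Fs (i + 1) ≤ Fs j := hmono h
          rw [hij] at h2
          omega
        · have h2 := (hf j hj).2.2
          have h3 := (hf i hi).2.1
          have h4 : Fs (j + 1) ≤ Fs i := hmono h
          rw [hij] at h3
          omega
    rw [card_range] at h1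
    omega
  obtain ⟨i, hi, hgap⟩ := hex
  rw [hstep] at hgap
  obtain ⟨S, hS, hS2⟩ := hmain (Fs i) V A B S0 hd hB hgap hS0
  exact ⟨S, hS.trans (Finset.le_sup (f := fun i => C (Fs i)) hi), hS2⟩

end Perm

section Graph

universe u

variable {V : Type u}

/-- A colouring `c` of the vertices of `G` (not necessarily proper) is distinguishing if the
identity is the only automorphism mapping every vertex to a vertex of the same colour. -/
def Distinguishing (G : SimpleGraph V) {κ : Type*} (c : V → κ) : Prop :=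
  ∀ φ : G ≃g G, (∀ v, c (φ v) = c v) → φ = RelIso.refl _

/-- `G` is 2-distinguishable. -/
def TwoDistinguishable (G : SimpleGraph V) : Prop :=
  ∃ c : V → Fin 2, Distinguishing G c

/-- `S` is a distinguishing class: a colour class of a distinguishing 2-colouring. -/
def DistinguishingClass (G : SimpleGraph V) (S : Finset V) : Prop :=
  ∃ c : V → Fin 2, Distinguishing G c ∧ ∃ i : Fin 2, ∀ v, v ∈ S ↔ c v = i

/-- The cost number `ρ(G)`: the least size of a distinguishing class. -/
noncomputable def rho (G : SimpleGraph V) : ℕ :=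
  sInf {n : ℕ | ∃ S : Finset V, DistinguishingClass G S ∧ S.card = n}

/-- `S` is a determining set. -/
def Determining (G : SimpleGraph V) (S : Finset V) : Prop :=
  ∀ φ : G ≃g G, (∀ v ∈ S, φ v = v) → φ = RelIso.refl _

/-- The determining number `Det(G)`. -/
noncomputable def Det (G : SimpleGraph V) : ℕ :=
  sInf {n : ℕ | ∃ S : Finset V, Determining G S ∧ S.card = n}

/-- The automorphism group of `G` as a subgroup of the permutation group of the vertices. -/
def autSub (G : SimpleGraph V) : Subgroup (Equiv.Perm V) where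
  carrier := {g | ∀ u v, G.Adj (g u) (g v) ↔ G.Adj u v}
  one_mem' := fun _ _ => Iff.rfl
  mul_mem' := by
    intro g h hg hh u v
    exact (hg (h u) (h v)).trans (hh u v)
  inv_mem' := by
    intro g hg u v
    have := hg (g⁻¹ u) (g⁻¹ v)
    simpa using this.symm

/-- Boutin's question has a negative answer for every `d`: the cost number of the
2-distinguishable graphs with determining number `d` is bounded by a constant `C(d)`. -/
theorem rho_bounded (d : ℕ) : ∃ C : ℕ, ∀ (V : Type u) [Finite V] (G : SimpleGraph V),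
    TwoDistinguishable G → Det G = d → rho G ≤ C := by
  classical
  obtain ⟨C, hC⟩ := bounded.{u} d
  refine ⟨C, ?_⟩
  intro V _ G hG hdet
  have : Fintype V := Fintype.ofFinite V
  have key : ∀ S : Finset V, (∀ φ : G ≃g G, (∀ v, φ v ∈ S ↔ v ∈ S) → φ = RelIso.refl _) →
      DistinguishingClass G S := by
    intro S hS
    refine ⟨fun v => if v ∈ S then 0 else 1, ?_, 0, ?_⟩
    · intro φ hφ
      apply hS
      intro v
      have h1 := hφ v
      simp only at h1
      by_cases h2 : φ v ∈ S <;> by_cases h3 : v ∈ S <;> simp [h2, h3] at h1 ⊢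
    · intro v
      by_cases h : v ∈ S <;> simp [h]
  have toIso : ∀ g ∈ autSub G, ∃ φ : G ≃g G, ∀ v, φ v = g v := by
    intro g hg
    exact ⟨⟨g, fun {a b} => hg a b⟩, fun v => rfl⟩
  have ofIso : ∀ φ : G ≃g G, φ.toEquiv ∈ autSub G := by
    intro φ u v
    exact φ.map_rel_iff
  -- a determining set of size `d`
  have hne : {n : ℕ | ∃ S : Finset V, Determining G S ∧ S.card = n}.Nonempty := by
    refine ⟨_, Finset.univ, ?_, rfl⟩
    intro φ hφ
    ext v
    exact hφ v (Finset.mem_univ v)
  obtain ⟨B, hB, hBc⟩ := Nat.sInf_mem hne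
  obtain ⟨c, hc⟩ := hG
  have hBcard : B.card ≤ d := by
    rw [hBc]
    exact hdet.le
  obtain ⟨S, hS, hS2⟩ := hC V (autSub G) B (Finset.univ.filter (fun v => c v = 0)) hBcard
    (by
      intro g hg hfix
      obtain ⟨φ, hφ⟩ := toIso g hg
      have h1 := hB φ (fun v hv => by rw [hφ]; exact hfix v hv)
      ext v
      rw [← hφ, h1]
      rfl)
    (by
      intro g hg hp
      obtain ⟨φ, hφ⟩ := toIso g hg
      have h1 := hc φ (fun v => by
        have h2 := hp v
        rw [Finset.mem_filter, Finset.mem_filter] at h2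
        rw [hφ]
        have h3 : c (g v) = 0 ↔ c v = 0 := by simpa using h2
        have h4 : ∀ i j : Fin 2, (i = 0 ↔ j = 0) → i = j := by decide
        exact h4 _ _ h3)
      ext v
      rw [← hφ, h1]
      rfl)
  refine (Nat.sInf_le ?_).trans hS
  refine ⟨S, key S ?_, rfl⟩
  intro φ hφ
  have h1 := hS2 φ.toEquiv (ofIso φ) hφ
  ext v
  have h2 := congrArg (fun g : Equiv.Perm V => g v) h1
  exact h2

/-- The question of Boutin, for a given `d`: can `ρ(G)` be arbitrarily far from `Det(G) = d`
for 2-distinguishable graphs `G` with `Det(G) = d`? -/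
def BoutinQuestion (d : ℕ) : Prop :=
  ∀ N : ℕ, ∃ (V : Type u) (_ : Finite V) (G : SimpleGraph V),
    TwoDistinguishable G ∧ Det G = d ∧ d + N ≤ rho G

theorem result :
    (∀ d : ℕ, ∃ C : ℕ, ∀ (V : Type u) [Finite V] (G : SimpleGraph V),
      TwoDistinguishable G → Det G = d → rho G ≤ C) ∧
    (∀ d : ℕ, ¬ BoutinQuestion.{u} d) := by
  refine ⟨rho_bounded, ?_⟩
  intro d h
  obtain ⟨C, hC⟩ := rho_bounded.{u} d
  obtain ⟨V, hV, G, hG, hd, hr⟩ := h (C + 1)
  have := hC V G hG hd
  omega

end Graph

end Pool.Agent.Results.MP_ff3c98_co.BoundedCost
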